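import Pool.Agent.helper9.TH.Spec

/-!
# Row LA: the ring lemma
-/

namespace Pool.Agent.helper58.TH

open Pool.Agent.helper9.TH

universe u

theorem la_eq {G : Type u} [Group G] {p i : ℕ} (hc : Nat.Coprime i p) {x w : G}
    (hx : x ^ p = 1) (hw : w ^ p = 1) (h : x ^ i = w ^ i) : x = w := by
  have key : ∀ v : G, v ^ p = 1 → v = (v ^ i) ^ (Nat.gcdA i p) := by
    intro v hv
    have h1 : v = v ^ ((Nat.gcd i p : ℕ) : ℤ) := by
      rw [hc]; simp
    have h2 : v ^ ((Nat.gcd i p : ℕ) : ℤ) = (v ^ i) ^ (Nat.gcdA i p) := by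
      rw [Nat.gcd_eq_gcd_ab, zpow_add, zpow_mul, zpow_mul, zpow_natCast, zpow_natCast, hv]
      simp
    exact h1.trans h2
  rw [key x hx, key w hw, h]

theorem LA : LA_stmt.{u} := by
  intro p E _ t A _ hp h1 h2 hA hs
  haveI := Fintype.ofFinite A
  have hpow : ∀ y ∈ A, (t * y) ^ p = 1 := by
    intro y hy
    have h := geom_sum_mul ((t * y : Eˣ) : E) p
    rw [hs y hy, zero_mul] at h
    apply Units.ext
    rw [Units.val_pow_eq_pow_val, Units.val_one]
    exact (sub_eq_zero.mp h.symm)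
  have hmem : ∀ i : ℕ, ∀ y ∈ A, (t ^ i)⁻¹ * (t * y) ^ i ∈ A := by
    intro i
    induction i with
    | zero => intro y hy; simp [A.one_mem]
    | succ i ih =>
      intro y hy
      have e : (t ^ (i + 1))⁻¹ * (t * y) ^ (i + 1) =
          (t⁻¹ * ((t ^ i)⁻¹ * (t * y) ^ i) * t) * y := by
        rw [pow_succ (t * y), pow_succ t, mul_inv_rev]
        simp only [mul_assoc]
      rw [e]
      exact A.mul_mem (h2 _ (ih y hy)) hy
  have hsum : ∀ i : ℕ, 0 < i → i < p →
      ∑ y : A, ((t * (y : Eˣ) : Eˣ) : E) ^ i = (t : E) ^ i * ∑ y : A, ((y : Eˣ) : E) := by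
    intro i hi0 hip
    have hc : Nat.Coprime i p := by
      rw [Nat.coprime_comm]
      exact (Nat.Prime.coprime_iff_not_dvd hp).mpr fun hd =>
        absurd (Nat.le_of_dvd hi0 hd) (not_le.mpr hip)
    let f : A → A := fun y => ⟨(t ^ i)⁻¹ * (t * (y : Eˣ)) ^ i, hmem i y y.2⟩
    have hinj : Function.Injective f := by
      intro y z hyz
      have h3 : (t ^ i)⁻¹ * (t * (y : Eˣ)) ^ i = (t ^ i)⁻¹ * (t * (z : Eˣ)) ^ i :=
        congrArg Subtype.val hyz
      have h4 : (t * (y : Eˣ)) ^ i = (t * (z : Eˣ)) ^ i := mul_left_cancel h3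
      have h5 : t * (y : Eˣ) = t * (z : Eˣ) := la_eq hc (hpow y y.2) (hpow z z.2) h4
      exact Subtype.ext (mul_left_cancel h5)
    have hbij : Function.Bijective f := Finite.injective_iff_bijective.mp hinj
    rw [← hbij.sum_comp (fun y : A => ((y : Eˣ) : E)), Finset.mul_sum]
    refine Finset.sum_congr rfl fun y _ => ?_
    have h6 : (t * (y : Eˣ)) ^ i = t ^ i * ((f y : A) : Eˣ) := by
      simp only [f]
      rw [mul_inv_cancel_left]
    have h7 := congrArg (Units.val) h6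
    push_cast at h7 ⊢
    exact h7
  have htot : ∑ i ∈ Finset.range p, ∑ y : A, ((t * (y : Eˣ) : Eˣ) : E) ^ i = 0 := by
    rw [Finset.sum_comm]
    exact Finset.sum_eq_zero fun y _ => hs y y.2
  obtain ⟨q, rfl⟩ : ∃ q, p = q + 1 := ⟨p - 1, (Nat.succ_pred_eq_of_pos hp.pos).symm⟩
  rw [Finset.sum_range_succ'] at htot
  have h8 : ∑ i ∈ Finset.range q, ∑ y : A, ((t * (y : Eˣ) : Eˣ) : E) ^ (i + 1) =
      (∑ i ∈ Finset.range q, (t : E) ^ (i + 1)) * ∑ y : A, ((y : Eˣ) : E) := by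
    rw [Finset.sum_mul]
    refine Finset.sum_congr rfl fun i hi => ?_
    exact hsum (i + 1) (Nat.succ_pos i) (Nat.succ_lt_succ (Finset.mem_range.mp hi))
  rw [h8] at htot
  have h9 : ∑ y : A, ((t * (y : Eˣ) : Eˣ) : E) ^ 0 = (Nat.card A : E) := by
    simp [Nat.card_eq_fintype_card]
  rw [h9] at htot
  rw [Subgroup.eq_bot_iff_forall]
  intro z hz
  have hN : (∑ y : A, ((y : Eˣ) : E)) * (z : E) = ∑ y : A, ((y : Eˣ) : E) := by
    rw [Finset.sum_mul]
    have := (Equiv.mulRight (⟨z, hz⟩ : A)).bijective.sum_comp (fun y : A => ((y : Eˣ) : E))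
    rw [← this]
    refine Finset.sum_congr rfl fun y _ => ?_
    simp
  have h10 : (Nat.card A : E) * (z : E) = (Nat.card A : E) := by
    have h11 := congrArg (fun e : E => e * (z : E)) htot
    simp only [add_mul, mul_assoc, hN, zero_mul] at h11
    have h12 := h11.trans htot.symm
    exact add_left_cancel h12
  have h13 := hA ((z : E) - 1) (by rw [mul_sub, h10, mul_one, sub_self])
  exact Units.ext (by rw [Units.val_one]; exact sub_eq_zero.mp h13)

end Pool.Agent.helper58.TH
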