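import Pool.Agent.helper48.TH.Spec

/-!
# Project TH, row SHE: Shearer's inequality for the entropy on the cube

Induction on the dimension; the first coordinate is split off.
-/

set_option autoImplicit false

namespace TP.TW

open DP MeasureTheory Finset

/-- the sum over the cube, first coordinate split off -/
private theorem SHE_sum {n : ℕ} (F : (Fin (n + 1) → Bool) → ℝ) :
    ∑ x, F x = ∑ y : Fin n → Bool, (F (Fin.cons false y) + F (Fin.cons true y)) := by
  rw [← (Fin.consEquiv (fun _ : Fin (n + 1) => Bool)).sum_comp F, Fintype.sum_prod_type, Fintype.sum_bool,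
    Finset.sum_add_distrib, add_comm]
  rfl

private theorem SHE_av {n : ℕ} (F : (Fin (n + 1) → Bool) → ℝ) :
    av F = av (fun y : Fin n → Bool => (F (Fin.cons false y) + F (Fin.cons true y)) / 2) := by
  unfold av
  rw [SHE_sum, ← Finset.sum_div, pow_succ, div_div, mul_comm]

private theorem SHE_lin {n : ℕ} (a b : (Fin n → Bool) → ℝ) :
    av (fun y => a y / 2 + b y) = av a / 2 + av b := by
  unfold av
  rw [Finset.sum_add_distrib, ← Finset.sum_div]
  ring

private theorem SHE_avg {n : ℕ} (a b : (Fin n → Bool) → ℝ) :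
    av (fun y => (a y + b y) / 2) = (av a + av b) / 2 := by
  unfold av
  rw [← Finset.sum_div, Finset.sum_add_distrib]
  ring

private theorem SHE_mono {n : ℕ} (a b : (Fin n → Bool) → ℝ) (h : ∀ y, a y ≤ b y) : av a ≤ av b := by
  unfold av
  exact div_le_div_of_nonneg_right (Finset.sum_le_sum fun y _ => h y) (by positivity)

private theorem SHE_step {n : ℕ} (F : (Fin (n + 1) → Bool) → ℝ) :
    Et F = av (fun y : Fin n → Bool => e2 (F (Fin.cons false y)) (F (Fin.cons true y))) / 2 +
      Et (fun y : Fin n → Bool => (F (Fin.cons false y) + F (Fin.cons true y)) / 2) := by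
  unfold Et
  rw [SHE_av (fun x => ph (F x)), SHE_av F]
  have h : (fun y : Fin n → Bool => (ph (F (Fin.cons false y)) + ph (F (Fin.cons true y))) / 2) =
      fun y : Fin n → Bool => e2 (F (Fin.cons false y)) (F (Fin.cons true y)) / 2 +
        ph ((F (Fin.cons false y) + F (Fin.cons true y)) / 2) := by
    funext y
    unfold e2 ph
    ring
  rw [h, SHE_lin]
  ring

/-- the part of `A` without the first coordinate -/
private def SHE_tl {n : ℕ} (A : Finset (Fin (n + 1))) : Finset (Fin n) := univ.filter fun i : Fin n => i.succ ∈ A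

private theorem SHE_card {n : ℕ} (A : Finset (Fin (n + 1))) :
    #A = (if (0 : Fin (n + 1)) ∈ A then 1 else 0) + #(SHE_tl A) := by
  have h := Fin.card_filter_univ_succ' (fun i : Fin (n + 1) => i ∈ A)
  rw [Finset.filter_univ_mem] at h
  rw [h]
  rfl

private theorem SHE_cond {n : ℕ} (A : Finset (Fin (n + 1))) (b c : Bool) (w y : Fin n → Bool) :
    (∀ i ∈ A, (Fin.cons c w : Fin (n + 1) → Bool) i = (Fin.cons b y : Fin (n + 1) → Bool) i) ↔
      ((0 : Fin (n + 1)) ∈ A → c = b) ∧ ∀ i ∈ SHE_tl A, w i = y i := by
  constructor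
  · intro h
    refine ⟨fun h0 => ?_, fun i hi => ?_⟩
    · have := h 0 h0
      rw [Fin.cons_zero, Fin.cons_zero] at this
      exact this
    · have := h i.succ (mem_filter.1 hi).2
      rw [Fin.cons_succ, Fin.cons_succ] at this
      exact this
  · rintro ⟨h1, h2⟩ i hi
    induction i using Fin.cases with
    | zero =>
      rw [Fin.cons_zero, Fin.cons_zero]
      exact h1 hi
    | succ j =>
      rw [Fin.cons_succ, Fin.cons_succ]
      exact h2 j (mem_filter.2 ⟨mem_univ j, hi⟩)

private theorem SHE_cex0 {n : ℕ} (A : Finset (Fin (n + 1))) (f : (Fin (n + 1) → Bool) → ℝ)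
    (hA : (0 : Fin (n + 1)) ∉ A) (b : Bool) (y : Fin n → Bool) :
    cex A f (Fin.cons b y) = cex (SHE_tl A) (fun w => (f (Fin.cons false w) + f (Fin.cons true w)) / 2) y := by
  have hc := SHE_card A
  rw [if_neg hA, Nat.zero_add] at hc
  have hle : #(SHE_tl A) ≤ n := by
    have := card_le_univ (SHE_tl A)
    rwa [Fintype.card_fin] at this
  unfold cex
  rw [Finset.sum_filter, SHE_sum, Finset.sum_filter]
  have h : ∀ w ∈ (univ : Finset (Fin n → Bool)),
      ((if ∀ i ∈ A, (Fin.cons false w : Fin (n + 1) → Bool) i = (Fin.cons b y : Fin (n + 1) → Bool) i then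
          f (Fin.cons false w) else 0) +
        (if ∀ i ∈ A, (Fin.cons true w : Fin (n + 1) → Bool) i = (Fin.cons b y : Fin (n + 1) → Bool) i then
          f (Fin.cons true w) else 0)) =
      2 * (if ∀ i ∈ SHE_tl A, w i = y i then (f (Fin.cons false w) + f (Fin.cons true w)) / 2 else 0) := by
    intro w _
    by_cases hw : ∀ i ∈ SHE_tl A, w i = y i
    · rw [if_pos ((SHE_cond A b false w y).2 ⟨fun h => absurd h hA, hw⟩),
        if_pos ((SHE_cond A b true w y).2 ⟨fun h => absurd h hA, hw⟩), if_pos hw]
      ring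
    · rw [if_neg (fun h => hw ((SHE_cond A b false w y).1 h).2),
        if_neg (fun h => hw ((SHE_cond A b true w y).1 h).2), if_neg hw]
      ring
  rw [Finset.sum_congr rfl h, ← Finset.mul_sum, hc, show n + 1 - #(SHE_tl A) = (n - #(SHE_tl A)) + 1 by omega,
    pow_succ, mul_comm (2 ^ (n - #(SHE_tl A))) (2 : ℝ)]
  exact mul_div_mul_left _ _ two_ne_zero

private theorem SHE_cex1 {n : ℕ} (A : Finset (Fin (n + 1))) (f : (Fin (n + 1) → Bool) → ℝ)
    (hA : (0 : Fin (n + 1)) ∈ A) (b : Bool) (y : Fin n → Bool) :
    cex A f (Fin.cons b y) = cex (SHE_tl A) (fun w => f (Fin.cons b w)) y := by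
  have hc := SHE_card A
  rw [if_pos hA] at hc
  unfold cex
  rw [Finset.sum_filter, SHE_sum, Finset.sum_filter]
  have h : ∀ w ∈ (univ : Finset (Fin n → Bool)),
      ((if ∀ i ∈ A, (Fin.cons false w : Fin (n + 1) → Bool) i = (Fin.cons b y : Fin (n + 1) → Bool) i then
          f (Fin.cons false w) else 0) +
        (if ∀ i ∈ A, (Fin.cons true w : Fin (n + 1) → Bool) i = (Fin.cons b y : Fin (n + 1) → Bool) i then
          f (Fin.cons true w) else 0)) =
      (if ∀ i ∈ SHE_tl A, w i = y i then f (Fin.cons b w) else 0) := by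
    intro w _
    by_cases hw : ∀ i ∈ SHE_tl A, w i = y i
    · cases b with
      | false =>
        rw [if_pos ((SHE_cond A false false w y).2 ⟨fun _ => rfl, hw⟩),
          if_neg (fun h => absurd (((SHE_cond A false true w y).1 h).1 hA) (by decide)), if_pos hw, add_zero]
      | true =>
        rw [if_neg (fun h => absurd (((SHE_cond A true false w y).1 h).1 hA) (by decide)),
          if_pos ((SHE_cond A true true w y).2 ⟨fun _ => rfl, hw⟩), if_pos hw, zero_add]
    · rw [if_neg (fun h => hw ((SHE_cond A b false w y).1 h).2),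
        if_neg (fun h => hw ((SHE_cond A b true w y).1 h).2), if_neg hw, add_zero]
  rw [Finset.sum_congr rfl h, hc, show n + 1 - (1 + #(SHE_tl A)) = n - #(SHE_tl A) by omega]

private theorem SHE_cexavg {n : ℕ} (A : Finset (Fin n)) (a b : (Fin n → Bool) → ℝ) (y : Fin n → Bool) :
    (cex A a y + cex A b y) / 2 = cex A (fun w => (a w + b w) / 2) y := by
  unfold cex
  rw [← Finset.sum_div, Finset.sum_add_distrib]
  ring

private theorem SHE_avcex (n : ℕ) : ∀ (A : Finset (Fin n)) (f : (Fin n → Bool) → ℝ), av (cex A f) = av f := by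
  induction n with
  | zero =>
    intro A f
    unfold av cex
    apply congrArg (fun z : ℝ => z / 2 ^ 0)
    apply Finset.sum_congr rfl
    intro x _
    have h1 : (univ.filter fun y : Fin 0 → Bool => ∀ i ∈ A, y i = x i) = {x} := by
      ext y
      rw [mem_filter, mem_singleton]
      exact ⟨fun _ => Subsingleton.elim _ _, fun _ => ⟨mem_univ y, fun i _ => i.elim0⟩⟩
    rw [h1, Finset.sum_singleton, show 0 - #A = 0 by omega, pow_zero, div_one]
  | succ n ih =>
    intro A f
    rw [SHE_av (cex A f), SHE_av f]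
    by_cases hA : (0 : Fin (n + 1)) ∈ A
    · have e : (fun y : Fin n → Bool => (cex A f (Fin.cons false y) + cex A f (Fin.cons true y)) / 2) =
          fun y => (cex (SHE_tl A) (fun w => f (Fin.cons false w)) y + cex (SHE_tl A) (fun w => f (Fin.cons true w)) y) / 2 := by
        funext y
        rw [SHE_cex1 A f hA false y, SHE_cex1 A f hA true y]
      rw [e, SHE_avg, ih, ih, SHE_avg]
    · have e : (fun y : Fin n → Bool => (cex A f (Fin.cons false y) + cex A f (Fin.cons true y)) / 2) =
          cex (SHE_tl A) (fun w => (f (Fin.cons false w) + f (Fin.cons true w)) / 2) := by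
        funext y
        rw [SHE_cex0 A f hA false y, SHE_cex0 A f hA true y]
        ring
      rw [e, ih]

/-- homogeneity -/
private theorem SHE_hom (c u v : ℝ) (hc : 0 < c) (hu : 0 ≤ u) (hv : 0 ≤ v) : e2 (c * u) (c * v) = c * e2 u v := by
  have hph : ∀ z : ℝ, 0 ≤ z → ph (c * z) = c * z * Real.log c + c * ph z := by
    intro z hz
    unfold ph
    rcases hz.lt_or_eq with h | h
    · rw [Real.log_mul hc.ne' h.ne']
      ring
    · rw [← h]
      ring
  unfold e2
  rw [hph u hu, hph v hv]
  have hs : (c * u + c * v) * Real.log ((c * u + c * v) / 2) =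
      (c * u + c * v) * Real.log c + c * ((u + v) * Real.log ((u + v) / 2)) := by
    rcases (add_nonneg hu hv).lt_or_eq with h | h
    · rw [show (c * u + c * v) / 2 = c * ((u + v) / 2) by ring, Real.log_mul hc.ne' (by positivity)]
      ring
    · rw [show c * u + c * v = c * (u + v) by ring, ← h]
      ring
  rw [hs]
  ring

private theorem SHE_point (h : LSU_stmt) {n : ℕ} (A : Finset (Fin n)) (a b : (Fin n → Bool) → ℝ)
    (ha : ∀ x, 0 ≤ a x) (hb : ∀ x, 0 ≤ b x) (y : Fin n → Bool) :
    e2 (cex A a y) (cex A b y) ≤ cex A (fun w => e2 (a w) (b w)) y := by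
  unfold cex
  have hc : (0 : ℝ) < 1 / 2 ^ (n - #A) := by positivity
  have h1 := h.2 (Fin n → Bool) (univ.filter fun z : Fin n → Bool => ∀ i ∈ A, z i = y i) a b
    (fun j _ => ha j) (fun j _ => hb j)
  have h2 := SHE_hom (1 / 2 ^ (n - #A)) (∑ z with ∀ i ∈ A, z i = y i, a z) (∑ z with ∀ i ∈ A, z i = y i, b z) hc
    (Finset.sum_nonneg fun j _ => ha j) (Finset.sum_nonneg fun j _ => hb j)
  rw [one_div_mul_eq_div, one_div_mul_eq_div, one_div_mul_eq_div] at h2
  rw [h2]
  exact div_le_div_of_nonneg_right h1 (by positivity)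

private theorem SHE_e2self (u : ℝ) : e2 u u = 0 := by
  unfold e2 ph
  rw [show (u + u) / 2 = u by ring]
  ring

private theorem SHE_zero (g : (Fin 0 → Bool) → ℝ) : Et g = 0 := by
  have h : ∀ F : (Fin 0 → Bool) → ℝ, av F = F default := by
    intro F
    unfold av
    rw [Fintype.sum_unique, pow_zero, div_one]
    exact congrArg F (Subsingleton.elim _ _)
  unfold Et
  rw [h, h]
  ring

theorem SHE (h : LSU_stmt) : SHE_stmt := by
  intro n
  induction n with
  | zero =>
    intro f _
    refine ⟨fun _ => 0, fun _ => le_rfl, ?_, fun A => ?_⟩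
    · rw [SHE_zero, Finset.sum_const_zero]
    · rw [SHE_zero, Finset.sum_const_zero]
  | succ n ih =>
    intro f hf
    obtain ⟨d, hd0, hds, hdA⟩ := ih (fun y => (f (Fin.cons false y) + f (Fin.cons true y)) / 2)
      (fun y => by
        have h1 := hf (Fin.cons false y)
        have h2 := hf (Fin.cons true y)
        show 0 ≤ (f (Fin.cons false y) + f (Fin.cons true y)) / 2
        linarith)
    have hE0 : ∀ y : Fin n → Bool, 0 ≤ e2 (f (Fin.cons false y)) (f (Fin.cons true y)) :=
      fun y => h.1 _ _ (hf _) (hf _)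
    have hE : 0 ≤ av (fun y : Fin n → Bool => e2 (f (Fin.cons false y)) (f (Fin.cons true y))) := by
      unfold av
      exact div_nonneg (Finset.sum_nonneg fun y _ => hE0 y) (by positivity)
    obtain ⟨E, hEdef⟩ : ∃ E : ℝ, E = av (fun y : Fin n → Bool => e2 (f (Fin.cons false y)) (f (Fin.cons true y))) / 2 := ⟨_, rfl⟩
    have hsumA : ∀ A : Finset (Fin (n + 1)), ∑ i ∈ A, (Fin.cons E d : Fin (n + 1) → ℝ) i =
        (if (0 : Fin (n + 1)) ∈ A then E else 0) + ∑ i ∈ SHE_tl A, d i := by
      intro A
      have e1 : ∑ i ∈ A, (Fin.cons E d : Fin (n + 1) → ℝ) i =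
          ∑ i : Fin (n + 1), if i ∈ A then (Fin.cons E d : Fin (n + 1) → ℝ) i else 0 := by
        rw [← Finset.sum_filter, Finset.filter_univ_mem]
      rw [e1, Fin.sum_univ_succ, Fin.cons_zero]
      congr 1
      unfold SHE_tl
      rw [Finset.sum_filter]
      apply Finset.sum_congr rfl
      intro i _
      rw [Fin.cons_succ]
    refine ⟨Fin.cons E d, ?_, ?_, ?_⟩
    · intro i
      induction i using Fin.cases with
      | zero =>
        rw [Fin.cons_zero, hEdef]
        linarith
      | succ j =>
        rw [Fin.cons_succ]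
        exact hd0 j
    · rw [Fin.sum_univ_succ, Fin.cons_zero, SHE_step f, ← hEdef]
      congr 1
    · intro A
      rw [hsumA A, SHE_step (cex A f)]
      by_cases hA : (0 : Fin (n + 1)) ∈ A
      · rw [if_pos hA]
        have e1 : (fun y : Fin n → Bool => (cex A f (Fin.cons false y) + cex A f (Fin.cons true y)) / 2) =
            cex (SHE_tl A) (fun w => (f (Fin.cons false w) + f (Fin.cons true w)) / 2) := by
          funext y
          rw [SHE_cex1 A f hA false y, SHE_cex1 A f hA true y, SHE_cexavg]
        have e2' : av (fun y : Fin n → Bool => e2 (cex A f (Fin.cons false y)) (cex A f (Fin.cons true y))) ≤ 2 * E := by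
          have g1 : av (fun y : Fin n → Bool => e2 (cex A f (Fin.cons false y)) (cex A f (Fin.cons true y))) ≤
              av (cex (SHE_tl A) (fun w : Fin n → Bool => e2 (f (Fin.cons false w)) (f (Fin.cons true w)))) := by
            apply SHE_mono
            intro y
            rw [SHE_cex1 A f hA false y, SHE_cex1 A f hA true y]
            exact SHE_point h (SHE_tl A) _ _ (fun x => hf _) (fun x => hf _) y
          rw [SHE_avcex] at g1
          rw [hEdef]
          linarith
        rw [e1]
        have := hdA (SHE_tl A)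
        linarith
      · rw [if_neg hA, zero_add]
        have e1 : (fun y : Fin n → Bool => (cex A f (Fin.cons false y) + cex A f (Fin.cons true y)) / 2) =
            cex (SHE_tl A) (fun w => (f (Fin.cons false w) + f (Fin.cons true w)) / 2) := by
          funext y
          rw [SHE_cex0 A f hA false y, SHE_cex0 A f hA true y]
          ring
        have e3 : (fun y : Fin n → Bool => e2 (cex A f (Fin.cons false y)) (cex A f (Fin.cons true y))) = fun _ => 0 := by
          funext y
          rw [SHE_cex0 A f hA false y, SHE_cex0 A f hA true y, SHE_e2self]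
        have e4 : av (fun _ : Fin n → Bool => (0 : ℝ)) = 0 := by
          unfold av
          rw [Finset.sum_const_zero, zero_div]
        rw [e1, e3, e4, zero_div, zero_add]
        exact hdA (SHE_tl A)

end TP.TW
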